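import Pool.Agent.Lib.MP_ed6522_an.Main

/-!
# Affine surfaces with an exceptional direction are not dense

For every genus `g ≥ 2` some nonempty open subset of the moduli space of affine surfaces of genus
`g` consists of surfaces none of which has an exceptional direction. The surfaces of the open set
have, in every direction, a closed leaf with nontrivial holonomy, and this property persists under
small perturbations of the surface. The example is an explicit `g`-fold cyclic cover of the Hopf
torus `ℂˣ / ⟨exp (5π/2)⟩`, branched over two points.
-/

set_option autoImplicit false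

open Pool.Agent.Lib.MP_ed6522_an

namespace Pool.Agent.Results.MP_ed6522_an.NotDense

/-- For every `g ≥ 2` there is a nonempty open subset `U` of the moduli space `M_g` of affine
surfaces of genus `g` such that no surface in `U` has an exceptional direction. Hence the set
`E_g` of surfaces with an exceptional direction is not dense, and it contains no dense `G_δ`
subset of `M_g`. -/
theorem result (g : ℕ) (hg : 2 ≤ g) :
    (∃ U : Set (Moduli g), IsOpen U ∧ U.Nonempty ∧
      ∀ X : SurfOfGenus g, Moduli.mk X ∈ U → ¬ HasExceptionalDirection X.1) ∧
    ¬ Dense (exceptionalSet g) ∧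
    ¬ ∃ D : Set (Moduli g), D ⊆ exceptionalSet g ∧ IsGδ D ∧ Dense D := by
  have hnd : ¬ Dense (exceptionalSet g) := by
    intro hd
    obtain ⟨m, hm, X, hX, hXe⟩ := hd.inter_open_nonempty _ (isOpen_goodSet g) (goodSet_nonempty hg)
    rw [← hX] at hm
    exact goodSet_spec hm hXe
  refine ⟨⟨goodSet g, isOpen_goodSet g, goodSet_nonempty hg, fun X hX => goodSet_spec hX⟩, hnd, ?_⟩
  rintro ⟨D, hD, -, hDd⟩
  exact hnd (hDd.mono hD)

end Pool.Agent.Results.MP_ed6522_an.NotDense
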