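import Pool.Agent.Lib.MP_ed6522_an.Tri.REG
import Pool.Agent.Lib.MP_ed6522_an.Tri.NHP
import Pool.Agent.Lib.MP_ed6522_an.Tri.OM
import Pool.Agent.Lib.MP_ed6522_an.Tri.CONN
import Pool.Agent.Lib.MP_ed6522_an.Tri.CNT
import Pool.Agent.Lib.MP_ed6522_an.Tri.CONE
import Pool.Agent.Lib.MP_ed6522_an.Tri.CHN
import Pool.Agent.Lib.MP_ed6522_an.Tri.FIN

/-!
# Not dense, even among the surfaces without immersed half-plane

For `g ≥ 3` the surfaces of genus `g` with an exceptional direction are not dense in the moduli
space even near surfaces without affinely immersed half-plane (the triangulable ones). The example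
is the double cover `w ^ 2 = ∏ j, (Re (b / ω_j) + 2/5 - conj a)` of the Hopf torus, branched over
`2 g - 2` points which lie on rays with all gaps less than `π`, no two of them opposite.
-/

set_option autoImplicit false

open Pool.Agent.Lib.MP_ed6522_an

namespace Pool.Agent.Results.MP_ed6522_an.NotDenseTriangulable

/-- For every `g ≥ 3` there is a surface `X₀` of genus `g` without affinely immersed half-plane which
has an open neighbourhood in the moduli space that contains no surface with an exceptional
direction. Hence the set of surfaces without affinely immersed half-plane is not contained in the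
closure of the set `E_g`. -/
theorem result (g : ℕ) (hg : 3 ≤ g) :
    (∃ X₀ : SurfOfGenus g, ¬ HasHalfPlane X₀.1 ∧
      ∃ U : Set (Moduli g), IsOpen U ∧ Moduli.mk X₀ ∈ U ∧
        ∀ X : SurfOfGenus g, Moduli.mk X ∈ U → ¬ HasExceptionalDirection X.1) ∧
    ¬ noHalfPlaneSet g ⊆ closure (exceptionalSet g) := by
  have h := Tri.specFIN Tri.specREG Tri.specNHP Tri.specOM Tri.specCON Tri.specCNT Tri.specCONE
    Tri.specCHN g hg
  refine ⟨h, ?_⟩
  obtain ⟨X₀, hX₀, U, hU, hXU, hno⟩ := h
  intro hsub
  have h1 : Moduli.mk X₀ ∈ closure (exceptionalSet g) := hsub ⟨X₀, rfl, hX₀⟩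
  obtain ⟨m, hmU, X, hX, hexc⟩ := mem_closure_iff.1 h1 U hU hXU
  exact hno X (hX ▸ hmU) hexc

end Pool.Agent.Results.MP_ed6522_an.NotDenseTriangulable
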